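import Mathlib

/-!
# The divided power algebra in one variable
-/

set_option autoImplicit false

universe u

namespace V1125.DPow

/-- The divided power algebra `D_k` in one variable over `k`, as a `k`-module: finitely supported
functions `ℕ → k`; the function supported at `n` with value `1` is `x^[n]`. -/
def DP (k : Type u) [CommRing k] : Type u := ℕ →₀ k

variable {k : Type u} [CommRing k]

noncomputable instance : AddCommGroup (DP k) := inferInstanceAs (AddCommGroup (ℕ →₀ k))
noncomputable instance : Module k (DP k) := inferInstanceAs (Module k (ℕ →₀ k))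

/-- The element `a x^[n]`. -/
noncomputable def mono (n : ℕ) : k →ₗ[k] DP k := Finsupp.lsingle (R := k) (M := k) n

/-- The coefficient of `x^[n]`. -/
noncomputable def coeff (n : ℕ) : DP k →ₗ[k] k := Finsupp.lapply (R := k) (M := k) n

@[ext] theorem ext {f g : DP k} (h : ∀ n, coeff n f = coeff n g) : f = g :=
  Finsupp.ext (α := ℕ) (M := k) h

theorem coeff_mono (m n : ℕ) (a : k) : coeff m (mono n a) = if n = m then a else 0 := by
  show (Finsupp.single n a : ℕ →₀ k) m = _
  rw [Finsupp.single_apply]

@[simp] theorem coeff_mono_same (n : ℕ) (a : k) : coeff n (mono n a) = a := by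
  rw [coeff_mono, if_pos rfl]

theorem coeff_mono_ne {m n : ℕ} (h : n ≠ m) (a : k) : coeff m (mono n a) = 0 := by
  rw [coeff_mono, if_neg h]

theorem induction_linear {p : DP k → Prop} (f : DP k) (h0 : p 0)
    (hadd : ∀ f g, p f → p g → p (f + g)) (hm : ∀ n a, p (mono n a)) : p f :=
  Finsupp.induction_linear (ι := ℕ) (M := k) (motive := p) f h0 hadd hm

/-- The multiplication on finitely supported functions, as a bilinear map:
`x^[i] x^[j] = (i+j choose i) x^[i+j]`. -/
noncomputable def mulF (k : Type u) [CommRing k] : (ℕ →₀ k) →ₗ[k] (ℕ →₀ k) →ₗ[k] (ℕ →₀ k) :=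
  Finsupp.lsum k (fun i => LinearMap.toSpanSingleton k ((ℕ →₀ k) →ₗ[k] (ℕ →₀ k))
    (Finsupp.lsum k (fun j => (((i + j).choose i : ℕ) : k) • Finsupp.lsingle (i + j))))

theorem mulF_single (i j : ℕ) (a b : k) :
    mulF k (Finsupp.single i a) (Finsupp.single j b) =
      Finsupp.single (i + j) ((((i + j).choose i : ℕ) : k) * (a * b)) := by
  rw [mulF, Finsupp.lsum_single, LinearMap.toSpanSingleton_apply, LinearMap.smul_apply,
    Finsupp.lsum_single, LinearMap.smul_apply, Finsupp.lsingle_apply, Finsupp.smul_single,
    Finsupp.smul_single, smul_eq_mul, smul_eq_mul]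
  congr 1
  ring

/-- The multiplication of `D_k`, as a bilinear map. -/
noncomputable def mulL (k : Type u) [CommRing k] : DP k →ₗ[k] DP k →ₗ[k] DP k := mulF k

theorem mulL_mono (i j : ℕ) (a b : k) :
    mulL k (mono i a) (mono j b) = mono (i + j) ((((i + j).choose i : ℕ) : k) * (a * b)) :=
  mulF_single i j a b

noncomputable instance : Mul (DP k) := ⟨fun f g => mulL k f g⟩
noncomputable instance : One (DP k) := ⟨mono 0 1⟩

theorem mul_def (f g : DP k) : f * g = mulL k f g := rfl
theorem one_def : (1 : DP k) = mono 0 1 := rfl

theorem mono_mul_mono (i j : ℕ) (a b : k) :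
    (mono i a * mono j b : DP k) = mono (i + j) ((((i + j).choose i : ℕ) : k) * (a * b)) :=
  mulL_mono i j a b

theorem dp_mul_add (f g h : DP k) : f * (g + h) = f * g + f * h := by
  simp only [mul_def, map_add]

theorem dp_add_mul (f g h : DP k) : (f + g) * h = f * h + g * h := by
  simp only [mul_def, map_add, LinearMap.add_apply]

theorem dp_zero_mul (f : DP k) : 0 * f = 0 := by
  simp only [mul_def, map_zero, LinearMap.zero_apply]

theorem dp_mul_zero (f : DP k) : f * 0 = 0 := by
  simp only [mul_def, map_zero]

theorem dp_mul_comm (f g : DP k) : f * g = g * f := by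
  induction f using induction_linear with
  | h0 => rw [dp_zero_mul, dp_mul_zero]
  | hadd f f' h h' => rw [dp_add_mul, dp_mul_add, h, h']
  | hm i a =>
    induction g using induction_linear with
    | h0 => rw [dp_zero_mul, dp_mul_zero]
    | hadd g g' h h' => rw [dp_add_mul, dp_mul_add, h, h']
    | hm j b =>
      rw [mono_mul_mono, mono_mul_mono, add_comm j i, mul_comm b a]
      congr 2
      rw [Nat.choose_symm_add]

theorem dp_one_mul (f : DP k) : 1 * f = f := by
  induction f using induction_linear with
  | h0 => rw [dp_mul_zero]
  | hadd f f' h h' => rw [dp_mul_add, h, h']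
  | hm i a => rw [one_def, mono_mul_mono]; simp

theorem dp_mul_assoc (f g h : DP k) : f * g * h = f * (g * h) := by
  induction f using induction_linear with
  | h0 => simp only [dp_zero_mul]
  | hadd f f' h h' => simp only [dp_add_mul, h, h']
  | hm i a =>
    induction g using induction_linear with
    | h0 => simp only [dp_zero_mul, dp_mul_zero]
    | hadd g g' h h' => simp only [dp_add_mul, dp_mul_add, h, h']
    | hm j b =>
      induction h using induction_linear with
      | h0 => simp only [dp_mul_zero]
      | hadd g g' h h' => simp only [dp_mul_add, h, h']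
      | hm l c =>
        rw [mono_mul_mono, mono_mul_mono, mono_mul_mono, mono_mul_mono, add_assoc]
        congr 1
        have h1 : (i + (j + l)).choose (i + j) * (i + j).choose i =
            (i + (j + l)).choose i * (j + l).choose j := by
          rw [Nat.choose_mul (by omega)]
          congr 2 <;> omega
        have h2 := congrArg (Nat.cast : ℕ → k) h1
        push_cast at h2
        calc _ = (((i + (j + l)).choose (i + j) : ℕ) : k) * (((i + j).choose i : ℕ) : k)
              * (a * b * c) := by ring
          _ = _ := by rw [h2]; ring

noncomputable instance : CommRing (DP k) :=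
  { (inferInstance : AddCommGroup (DP k)), (inferInstance : Mul (DP k)),
    (inferInstance : One (DP k)) with
    left_distrib := dp_mul_add
    right_distrib := dp_add_mul
    zero_mul := dp_zero_mul
    mul_zero := dp_mul_zero
    mul_assoc := dp_mul_assoc
    one_mul := dp_one_mul
    mul_one := fun f => by rw [dp_mul_comm]; exact dp_one_mul f
    mul_comm := dp_mul_comm }

theorem smul_mul (a : k) (f g : DP k) : (a • f) * g = a • (f * g) := by
  simp only [mul_def, map_smul, LinearMap.smul_apply]

theorem mul_smul' (a : k) (f g : DP k) : f * (a • g) = a • (f * g) := by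
  simp only [mul_def, map_smul]

noncomputable instance : Algebra k (DP k) := Algebra.ofModule smul_mul mul_smul'

theorem smul_mono (a : k) (n : ℕ) (b : k) : a • (mono n b : DP k) = mono n (a * b) := by
  rw [← map_smul, smul_eq_mul]

/-- Coefficients of a product. -/
theorem coeff_mul (n : ℕ) (f g : DP k) : coeff n (f * g) =
    ∑ p ∈ Finset.HasAntidiagonal.antidiagonal n, ((n.choose p.1 : ℕ) : k) * (coeff p.1 f * coeff p.2 g) := by
  induction f using induction_linear with
  | h0 => simp
  | hadd f f' h h' =>
    rw [add_mul, map_add, h, h', ← Finset.sum_add_distrib]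
    refine Finset.sum_congr rfl fun p _ => ?_
    rw [map_add]; ring
  | hm i a =>
    induction g using induction_linear with
    | h0 => simp
    | hadd f f' h h' =>
      rw [mul_add, map_add, h, h', ← Finset.sum_add_distrib]
      refine Finset.sum_congr rfl fun p _ => ?_
      rw [map_add]; ring
    | hm j b =>
      rw [mono_mul_mono]
      by_cases hn : i + j = n
      · subst hn
        rw [coeff_mono_same, Finset.sum_eq_single (i, j)]
        · rw [coeff_mono_same, coeff_mono_same]
        · rintro ⟨p, q⟩ hp hne
          rw [Finset.HasAntidiagonal.mem_antidiagonal] at hp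
          by_cases h1 : i = p
          · have : j ≠ q := by
              rintro rfl
              exact hne (by rw [h1])
            rw [coeff_mono_ne this, mul_zero, mul_zero]
          · rw [coeff_mono_ne h1, zero_mul, mul_zero]
        · intro h
          exact absurd (Finset.HasAntidiagonal.mem_antidiagonal.2 (rfl : i + j = i + j)) h
      · rw [coeff_mono_ne hn]
        symm
        refine Finset.sum_eq_zero ?_
        rintro ⟨p, q⟩ hp
        rw [Finset.HasAntidiagonal.mem_antidiagonal] at hp
        by_cases h1 : i = p
        · have : j ≠ q := by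
            rintro rfl
            exact hn (by rw [h1, hp])
          rw [coeff_mono_ne this, mul_zero, mul_zero]
        · rw [coeff_mono_ne h1, zero_mul, mul_zero]

/-- Every element has only finitely many nonzero coefficients. -/
theorem exists_bound (f : DP k) : ∃ n, ∀ m, n < m → coeff m f = 0 := by
  refine ⟨(Finsupp.support (f : ℕ →₀ k)).sup id, fun m hm => ?_⟩
  by_contra h
  have h1 : m ∈ Finsupp.support (f : ℕ →₀ k) := Finsupp.mem_support_iff.2 h
  have h2 := Finset.le_sup (f := id) h1
  simp only [id_eq] at h2
  omega

/-- An element is the sum of its homogeneous components. -/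
theorem eq_sum_range (f : DP k) (n : ℕ) (hf : ∀ m, n ≤ m → coeff m f = 0) :
    f = ∑ i ∈ Finset.range n, mono i (coeff i f) := by
  ext m
  rw [map_sum]
  by_cases hm : m < n
  · rw [Finset.sum_eq_single m]
    · rw [coeff_mono_same]
    · intro b _ hb
      rw [coeff_mono_ne hb]
    · intro h
      exact absurd (Finset.mem_range.2 hm) h
  · rw [hf m (not_lt.1 hm)]
    symm
    refine Finset.sum_eq_zero fun i hi => ?_
    rw [Finset.mem_range] at hi
    rw [coeff_mono_ne (by omega)]

end V1125.DPow
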