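import Pool.Agent.V1125.DPow.Cut

/-!
# From bounded representations to finitely generated initial ideals
-/

set_option autoImplicit false

universe u v

namespace V1125.DPow

open Polynomial

variable {k : Type u} [CommRing k]

theorem comp_mul (n : ℕ) (f g : DP k) : (mono n (coeff n (f * g)) : DP k) =
    ∑ q ∈ Finset.range (n + 1), mono (n - q) (coeff (n - q) f) * mono q (coeff q g) := by
  rw [coeff_mul, map_sum, Finset.Nat.sum_antidiagonal_eq_sum_range_succ
    (fun p q => (mono n (((n.choose p : ℕ) : k) * (coeff p f * coeff q g)) : DP k)),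
    ← Finset.sum_range_reflect]
  refine Finset.sum_congr rfl fun q hq => ?_
  rw [Finset.mem_range] at hq
  have h1 : n.succ - 1 - q = n - q := by omega
  have h2 : n - (n - q) = q := by omega
  have h3 : n - q + q = n := by omega
  rw [h1, h2, mono_mul_mono, h3]

theorem hc_mul {ι : Type} (e : ι → ℕ) (N : ℕ) (u : DP k) (w : ι → DP k) (i : ι) :
    hc e N (fun i => u * w i) i =
      ∑ μ ∈ Finset.range (N + 1), mono (N - μ) (coeff (N - μ) u) * hc e μ w i := by
  by_cases h : e i ≤ N
  · have h0 : hc e N (fun i => u * w i) i = mono (N - e i) (coeff (N - e i) (u * w i)) := by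
      rw [hc, if_pos h]
    obtain ⟨m, hm⟩ : ∃ m, N = e i + m := ⟨N - e i, by omega⟩
    have h1 : N + 1 = e i + (m + 1) := by omega
    rw [h0, comp_mul, h1, Finset.sum_range_add _ (e i) (m + 1)]
    have h2 : ∑ μ ∈ Finset.range (e i), mono (N - μ) (coeff (N - μ) u) * hc e μ w i = 0 := by
      refine Finset.sum_eq_zero fun μ hμ => ?_
      rw [Finset.mem_range] at hμ
      rw [hc, if_neg (by omega), mul_zero]
    rw [h2, zero_add]
    have h3 : N - e i + 1 = m + 1 := by omega
    rw [h3]
    refine Finset.sum_congr rfl fun q hq => ?_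
    rw [Finset.mem_range] at hq
    rw [hc, if_pos (by omega)]
    have h4 : N - e i - q = N - (e i + q) := by omega
    have h5 : e i + q - e i = q := by omega
    rw [h4, h5]
  · have h0 : hc e N (fun i => u * w i) i = 0 := by rw [hc, if_neg h]
    rw [h0]
    symm
    refine Finset.sum_eq_zero fun μ hμ => ?_
    rw [Finset.mem_range] at hμ
    rw [hc, if_neg (by omega), mul_zero]

theorem coeff_hc {ι : Type} (e : ι → ℕ) (N : ℕ) (w : ι → DP k) (i : ι) (m : ℕ) :
    coeff m (hc e N w i) = if m + e i = N then coeff m (w i) else 0 := by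
  rw [hc]
  split_ifs with h1 h2 h2
  · have : N - e i = m := by omega
    rw [this, coeff_mono_same]
  · rw [coeff_mono_ne (by omega)]
  · omega
  · exact map_zero _

section Top

variable {ι : Type} [Fintype ι] (G : ι → DP k) (e : ι → ℕ)
  (hG : ∀ i m, e i < m → coeff m (G i) = 0) (h : ι → DP k) (N : ℕ)
  (hh : ∀ i m, N < m + e i → coeff m (h i) = 0)

include hG hh

theorem top_coeff : coeff N (∑ i, h i * G i) = coeff N (lin e (fun i => coeff (e i) (G i)) h) := by
  rw [lin_apply, map_sum, map_sum]
  refine Finset.sum_congr rfl fun i _ => ?_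
  rw [coeff_mul_mono, coeff_mul]
  split_ifs with hi
  · rw [Finset.sum_eq_single (N - e i, e i)]
    · rw [Nat.choose_symm hi]
    · rintro ⟨p, q⟩ hpq hne
      rw [Finset.HasAntidiagonal.mem_antidiagonal] at hpq
      simp only at hpq ⊢
      by_cases hq : e i < q
      · rw [hG i q hq]; simp
      · by_cases hp : N < p + e i
        · rw [hh i p hp]; simp
        · exact absurd (by rw [Prod.mk.injEq]; omega) hne
    · intro hne
      exact absurd ((Finset.HasAntidiagonal.mem_antidiagonal (a := (N - e i, e i))).2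
        (by simp only; omega)) hne
  · refine Finset.sum_eq_zero ?_
    rintro ⟨p, q⟩ hpq
    rw [hh i p (by omega)]; simp

theorem high_coeff (m : ℕ) (hm : N < m) : coeff m (∑ i, h i * G i) = 0 := by
  rw [map_sum]
  refine Finset.sum_eq_zero fun i _ => ?_
  rw [coeff_mul]
  refine Finset.sum_eq_zero ?_
  rintro ⟨p, q⟩ hpq
  rw [Finset.HasAntidiagonal.mem_antidiagonal] at hpq
  simp only at hpq ⊢
  by_cases hq : e i < q
  · rw [hG i q hq]; simp
  · rw [hh i p (by omega)]; simp

end Top

/-- Elements of `I` have representations whose formal degree exceeds the degree by at most `b`. -/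
def U (I : Ideal (DP k)) (b : ℕ) : Prop :=
  ∃ (ι : Type) (_ : Fintype ι) (G : ι → DP k) (e : ι → ℕ),
    (∀ i m, e i < m → coeff m (G i) = 0) ∧ (∀ i, G i ∈ I) ∧
    ∀ n, ∀ f ∈ I, (∀ i, n < i → coeff i f = 0) →
      ∃ h : ι → DP k, (∀ i m, n + b < m + e i → coeff m (h i) = 0) ∧ f = ∑ i, h i * G i

theorem U_step (hD : GradedCoherent (dpComp (k := k))) (I : Ideal (DP k)) (b : ℕ)
    (hU : U I (b + 1)) : U I b := by
  classical
  obtain ⟨ι, _, G, e, hG, hGI, hrep⟩ := hU
  set a : ι → k := fun i => coeff (e i) (G i) with ha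
  obtain ⟨t, w, hw⟩ := Submodule.fg_iff_exists_fin_generating_family.1 (syz_fg hD e a)
  have hwker : ∀ s, lin e a (w s) = 0 := by
    intro s
    have : w s ∈ LinearMap.ker (lin e a) := by rw [← hw]; exact Submodule.subset_span ⟨s, rfl⟩
    exact this
  obtain ⟨B, hB⟩ : ∃ B, ∀ s i m, B < m → coeff m (w s i) = 0 := by
    choose B hB using fun x : Fin t × ι => exists_bound (w x.1 x.2)
    exact ⟨Finset.univ.sup B, fun s i m hm =>
      hB (s, i) m (lt_of_le_of_lt (Finset.le_sup (f := B) (Finset.mem_univ (s, i))) hm)⟩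
  set M : ℕ := B + Finset.univ.sup e with hM
  have hhc : ∀ s μ, M < μ → hc e μ (w s) = 0 := by
    intro s μ hμ
    funext i
    ext m
    rw [coeff_hc]
    split_ifs with h1
    · have h2 : e i ≤ Finset.univ.sup e := Finset.le_sup (Finset.mem_univ i)
      rw [hB s i m (by omega)]; rfl
    · rfl
  set G2 : Fin t → ℕ → DP k := fun s μ => ∑ i, hc e μ (w s) i * G i with hG2
  have hhcdeg : ∀ s μ i m, μ < m + e i → coeff m (hc e μ (w s) i) = 0 := by
    intro s μ i m hm
    rw [coeff_hc, if_neg (by omega)]
  have hG2top : ∀ s μ, coeff μ (G2 s μ) = 0 := by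
    intro s μ
    rw [hG2]
    simp only
    rw [top_coeff G e hG _ μ (hhcdeg s μ), lin_hc, hwker, map_zero, map_zero, map_zero]
  have hG2high : ∀ s μ m, μ < m → coeff m (G2 s μ) = 0 := by
    intro s μ m hm
    rw [hG2]
    exact high_coeff G e hG _ μ (hhcdeg s μ) m hm
  have hG20 : ∀ s, G2 s 0 = 0 := by
    intro s
    ext m
    rcases Nat.eq_zero_or_pos m with rfl | hm
    · rw [hG2top, map_zero]
    · rw [hG2high s 0 m hm, map_zero]
  have hG2M : ∀ s μ, M < μ → G2 s μ = 0 := by
    intro s μ hμ
    rw [hG2]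
    simp only
    rw [hhc s μ hμ]
    simp
  refine ⟨ι ⊕ (Fin t × Fin (M + 1)), inferInstance,
    Sum.elim G (fun x => G2 x.1 x.2), Sum.elim e (fun x => (x.2 : ℕ) - 1), ?_, ?_, ?_⟩
  · rintro (i | ⟨s, μ⟩) m hm
    · exact hG i m hm
    · simp only [Sum.elim_inr] at hm ⊢
      rcases Nat.lt_or_ge (μ : ℕ) m with h | h
      · exact hG2high s μ m h
      · have : (μ : ℕ) = m := by omega
        rw [← this]
        exact hG2top s μ
  · rintro (i | ⟨s, μ⟩)
    · exact hGI i
    · exact Ideal.sum_mem _ fun i _ => Ideal.mul_mem_left _ _ (hGI i)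
  · intro n f hf hfn
    obtain ⟨h, hh, hfh⟩ := hrep n f hf hfn
    set N : ℕ := n + (b + 1) with hN
    have h1 : coeff N (lin e a h) = 0 := by
      rw [← top_coeff G e hG h N hh, ← hfh]
      exact hfn N (by omega)
    set T : ι → DP k := hc e N h with hT
    have h2 : T ∈ LinearMap.ker (lin e a) := by
      rw [LinearMap.mem_ker, hT, lin_hc, h1, map_zero]
    rw [← hw, Submodule.mem_span_range_iff_exists_fun] at h2
    obtain ⟨u, hu⟩ := h2
    have h3 : ∀ i, T i = ∑ s, ∑ μ ∈ Finset.range (N + 1),
        mono (N - μ) (coeff (N - μ) (u s)) * hc e μ (w s) i := by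
      intro i
      have e1 : T i = hc e N T i := by
        ext m
        rw [coeff_hc, hT, coeff_hc]
        split_ifs with h5
        · rw [coeff_hc, if_pos h5]
        · rfl
      have e2 : ∀ i, T i = ∑ s, u s * w s i := by
        intro i
        rw [← hu, Finset.sum_apply]
        rfl
      have e3 : hc e N T i = ∑ s, hc e N (fun i => u s * w s i) i := by
        ext m
        rw [coeff_hc, map_sum]
        simp only [coeff_hc]
        split_ifs with h5
        · rw [e2, map_sum]
        · simp
      rw [e1, e3]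
      exact Finset.sum_congr rfl fun s _ => hc_mul e N (u s) (w s) i
    refine ⟨Sum.elim (fun i => h i - T i) (fun x => if 1 ≤ (x.2 : ℕ) ∧ (x.2 : ℕ) ≤ N then
      mono (N - x.2) (coeff (N - x.2) (u x.1)) else 0), ?_, ?_⟩
    · rintro (i | ⟨s, μ⟩) m hm
      · simp only [Sum.elim_inl] at hm ⊢
        rw [map_sub, hT, coeff_hc]
        split_ifs with h5
        · rw [sub_self]
        · rw [hh i m (by omega), sub_zero]
      · simp only [Sum.elim_inr] at hm ⊢
        split_ifs with h5
        · rw [coeff_mono_ne (by omega)]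
        · exact map_zero _
    · rw [Fintype.sum_sum_type]
      simp only [Sum.elim_inl, Sum.elim_inr]
      have e4 : ∑ i, T i * G i = ∑ s, ∑ μ ∈ Finset.range (N + 1),
          mono (N - μ) (coeff (N - μ) (u s)) * G2 s μ := by
        simp only [h3, Finset.sum_mul]
        rw [Finset.sum_comm]
        refine Finset.sum_congr rfl fun s _ => ?_
        rw [Finset.sum_comm]
        refine Finset.sum_congr rfl fun μ _ => ?_
        rw [hG2, Finset.mul_sum]
        exact Finset.sum_congr rfl fun i _ => by ring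
      have e5 : ∑ x : Fin t × Fin (M + 1), (if 1 ≤ (x.2 : ℕ) ∧ (x.2 : ℕ) ≤ N then
          mono (N - x.2) (coeff (N - x.2) (u x.1)) else 0) * G2 x.1 x.2 =
          ∑ s, ∑ μ ∈ Finset.range (N + 1), mono (N - μ) (coeff (N - μ) (u s)) * G2 s μ := by
        rw [Fintype.sum_prod_type]
        refine Finset.sum_congr rfl fun s _ => ?_
        simp only
        rw [Fin.sum_univ_eq_sum_range (fun μ => (if 1 ≤ μ ∧ μ ≤ N then
          mono (N - μ) (coeff (N - μ) (u s)) else 0) * G2 s μ)]
        have e6 : ∑ μ ∈ Finset.range (M + 1), (if 1 ≤ μ ∧ μ ≤ N then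
            mono (N - μ) (coeff (N - μ) (u s)) else 0) * G2 s μ =
            ∑ μ ∈ Finset.range (M + N + 1), (if 1 ≤ μ ∧ μ ≤ N then
            mono (N - μ) (coeff (N - μ) (u s)) else 0) * G2 s μ := by
          apply Finset.sum_subset
          · intro x hx
            rw [Finset.mem_range] at hx ⊢
            omega
          · intro x _ hx
            rw [Finset.mem_range] at hx
            rw [hG2M s x (by omega), mul_zero]
        have e7 : ∑ μ ∈ Finset.range (N + 1), mono (N - μ) (coeff (N - μ) (u s)) * G2 s μ =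
            ∑ μ ∈ Finset.range (M + N + 1), (if 1 ≤ μ ∧ μ ≤ N then
            mono (N - μ) (coeff (N - μ) (u s)) else 0) * G2 s μ := by
          have e8 : ∑ μ ∈ Finset.range (N + 1), mono (N - μ) (coeff (N - μ) (u s)) * G2 s μ =
              ∑ μ ∈ Finset.range (N + 1), (if 1 ≤ μ ∧ μ ≤ N then
              mono (N - μ) (coeff (N - μ) (u s)) else 0) * G2 s μ := by
            refine Finset.sum_congr rfl fun μ hμ => ?_
            rw [Finset.mem_range] at hμ
            rcases Nat.eq_zero_or_pos μ with rfl | hpos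
            · rw [hG20, mul_zero, mul_zero]
            · rw [if_pos (by omega)]
          rw [e8]
          apply Finset.sum_subset
          · intro x hx
            rw [Finset.mem_range] at hx ⊢
            omega
          · intro x _ hx
            rw [Finset.mem_range] at hx
            rw [if_neg (by omega), zero_mul]
        rw [e6, e7]
      rw [e5, ← e4, ← Finset.sum_add_distrib, hfh]
      exact Finset.sum_congr rfl fun i _ => by ring

theorem U_zero (hD : GradedCoherent (dpComp (k := k))) (I : Ideal (DP k)) (b : ℕ)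
    (hU : U I b) : U I 0 := by
  induction b with
  | zero => exact hU
  | succ b ih => exact ih (U_step hD I b hU)

theorem inIdeal_fg (I : Ideal (DP k)) (hU : U I 0) : (inIdeal (dpComp (k := k)) I).FG := by
  obtain ⟨ι, _, G, e, hG, hGI, hrep⟩ := hU
  have heq : inIdeal (dpComp (k := k)) I =
      Ideal.span (Set.range fun i => (mono (e i) (coeff (e i) (G i)) : DP k)) := by
    apply le_antisymm
    · rw [inIdeal, Ideal.span_le]
      rintro g ⟨f, hf, n, rfl, _, hn⟩
      have hfn : ∀ m, n < m → coeff m f = 0 := by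
        intro m hm
        have := congrArg (coeff m) (hn m hm)
        rwa [dpComp, coeff_mono_same, map_zero] at this
      obtain ⟨h, hh, hfh⟩ := hrep n f hf hfn
      rw [SetLike.mem_coe, mem_span_range]
      refine ⟨hc e n h, ?_⟩
      rw [lin_hc, ← top_coeff G e hG h n hh, ← hfh]
      rfl
    · rw [Ideal.span_le]
      rintro _ ⟨i, rfl⟩
      by_cases h0 : (mono (e i) (coeff (e i) (G i)) : DP k) = 0
      · simp only [h0]
        exact (inIdeal (dpComp (k := k)) I).zero_mem
      · refine Ideal.subset_span ⟨G i, hGI i, e i, rfl, h0, fun m hm => ?_⟩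
        rw [dpComp, hG i m hm, map_zero]
  rw [heq]
  exact Submodule.fg_span (Set.finite_range _)

/-- The main theorem, for a ring `K` behaving like `k ⊗ ℚ`. -/
theorem main {K : Type v} [CommRing K] [Algebra ℚ K] {ψ : k →+* K}
    (hD : GradedCoherent (dpComp (k := k)))
    (h1 : ∀ a : k, ψ a = 0 → ∃ s : ℕ, 0 < s ∧ (s : k) * a = 0)
    (h2 : ∀ z : K, ∃ s : ℕ, 0 < s ∧ ∃ a : k, (s : K) * z = ψ a)
    (hK : ∀ I : Ideal K[X], I.FG → (inIdeal (polyComp (K := K)) I).FG)
    (I : Ideal (DP k)) (hI : I.FG) : (inIdeal (dpComp (k := k)) I).FG := by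
  obtain ⟨t, F, hF⟩ := Submodule.fg_iff_exists_fin_generating_family.1 hI
  obtain ⟨d, hd⟩ : ∃ d, ∀ j i, d < i → coeff i (F j) = 0 := by
    choose B hB using fun j => exists_bound (F j)
    exact ⟨Finset.univ.sup B, fun j m hm =>
      hB j m (lt_of_le_of_lt (Finset.le_sup (f := B) (Finset.mem_univ j)) hm)⟩
  obtain ⟨b, hb⟩ := uniform hD h1 h2 F d hd
    (hK _ (Submodule.fg_span (Set.finite_range _)))
  apply inIdeal_fg
  apply U_zero hD I (b + d)
  refine ⟨Fin t, inferInstance, F, fun _ => d, hd, fun i => ?_, fun n f hf hfn => ?_⟩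
  · rw [← hF]; exact Submodule.subset_span ⟨i, rfl⟩
  · have hf' : f ∈ Ideal.span (Set.range F) := by
      rw [← hF] at hf; exact hf
    obtain ⟨h, hh, hfh⟩ := hb n f hf' hfn
    exact ⟨h, fun i m hm => hh i m (by simp only at hm; omega), hfh⟩

end V1125.DPow
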