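import Mathlib

/-!
# Binomial coefficients near multiples of a highly divisible number
-/

set_option autoImplicit false

namespace V1125.DPow

theorem dvd_choose_of_dvd {d M N s : ℕ} (h : d.factorial * M ∣ N) (h1 : 1 ≤ s) (h2 : s ≤ d) :
    M ∣ N.choose s := by
  obtain ⟨t, rfl⟩ := h
  obtain ⟨u, hu⟩ : s ∣ d.factorial := Nat.dvd_factorial (by omega) h2
  rcases Nat.eq_zero_or_pos (d.factorial * M * t) with h0 | hpos
  · rw [h0]
    obtain ⟨s', rfl⟩ : ∃ s', s = s' + 1 := ⟨s - 1, by omega⟩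
    simp
  obtain ⟨N', hN'⟩ : ∃ N', d.factorial * M * t = N' + 1 := ⟨d.factorial * M * t - 1, by omega⟩
  obtain ⟨s', rfl⟩ : ∃ s', s = s' + 1 := ⟨s - 1, by omega⟩
  have h3 := Nat.add_one_mul_choose_eq N' s'
  rw [← hN'] at h3
  have h4 : (s' + 1) * (u * M * t * N'.choose s') = (s' + 1) * (d.factorial * M * t).choose (s' + 1) := by
    calc (s' + 1) * (u * M * t * N'.choose s') = ((s' + 1) * u) * M * t * N'.choose s' := by ring
      _ = d.factorial * M * t * N'.choose s' := by rw [← hu]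
      _ = _ := by rw [h3]; ring
  have h5 := Nat.eq_of_mul_eq_mul_left (Nat.succ_pos s') h4
  rw [← h5]
  exact ⟨u * t * N'.choose s', by ring⟩

theorem dvd_choose_add {d M N i j : ℕ} (h : d.factorial * M ∣ N) (hij : i < j) (hj : j ≤ d) :
    M ∣ (N + i).choose j := by
  rw [Nat.add_choose_eq]
  refine Finset.dvd_sum ?_
  rintro ⟨p, q⟩ hpq
  rw [Finset.HasAntidiagonal.mem_antidiagonal] at hpq
  simp only at hpq
  by_cases hq : i < q
  · rw [Nat.choose_eq_zero_of_lt hq, mul_zero]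
    exact dvd_zero _
  · exact Dvd.dvd.mul_right (dvd_choose_of_dvd h (by omega) (by omega)) _

theorem choose_add_self_mod {d M N i : ℕ} (h : d.factorial * M ∣ N) (hi : i ≤ d) :
    ∃ t, (N + i).choose i = 1 + M * t := by
  rw [Nat.add_choose_eq]
  have hmem : ((0, i) : ℕ × ℕ) ∈ Finset.HasAntidiagonal.antidiagonal i := by
    rw [Finset.HasAntidiagonal.mem_antidiagonal]
    simp
  rw [← Finset.add_sum_erase _ _ hmem]
  have : M ∣ ∑ x ∈ (Finset.HasAntidiagonal.antidiagonal i).erase (0, i),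
      N.choose x.1 * i.choose x.2 := by
    refine Finset.dvd_sum ?_
    rintro ⟨p, q⟩ hpq
    rw [Finset.mem_erase, Finset.HasAntidiagonal.mem_antidiagonal] at hpq
    obtain ⟨hne, hpq⟩ := hpq
    simp only at hpq
    have hp : 1 ≤ p := by
      by_contra hp
      apply hne
      rw [Prod.mk.injEq]
      omega
    exact Dvd.dvd.mul_right (dvd_choose_of_dvd h hp (by omega)) _
  obtain ⟨t, ht⟩ := this
  refine ⟨t, ?_⟩
  rw [ht]
  simp

theorem exists_dvd_of_dvd_choose {p N i : ℕ} (hp : p.Prime) (h : p ∣ (N + i).choose i) :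
    ∃ j, 1 ≤ j ∧ j ≤ i ∧ p ∣ N + j := by
  have h1 : p ∣ (N + 1).ascFactorial i := by
    rw [Nat.ascFactorial_eq_factorial_mul_choose]
    exact Dvd.dvd.mul_left h _
  rw [Nat.ascFactorial_eq_prod_range, hp.prime.dvd_finsetProd_iff] at h1
  obtain ⟨j, hj, hj'⟩ := h1
  rw [Finset.mem_range] at hj
  exact ⟨j + 1, by omega, by omega, by rw [show N + (j + 1) = N + 1 + j by ring]; exact hj'⟩

/-- The product of binomial coefficients used to clear units. -/
def sprod (d N : ℕ) : ℕ := ∏ i ∈ Finset.range d, (N + i).choose i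

theorem coprime_three {d n P N1 : ℕ} (hP : 0 < P)
    (hN1 : d.factorial * (P * (max (2 * d) P).factorial) ∣ N1) :
    Nat.gcd (sprod d N1) (Nat.gcd (P * sprod d (n + 1)) (P * sprod d (n + 1 + d))) = 1 := by
  rw [Nat.eq_one_iff_not_exists_prime_dvd]
  intro p hp hdvd
  have h1 : p ∣ sprod d N1 := dvd_trans hdvd (Nat.gcd_dvd_left _ _)
  have h2 : p ∣ P * sprod d (n + 1) :=
    dvd_trans hdvd (dvd_trans (Nat.gcd_dvd_right _ _) (Nat.gcd_dvd_left _ _))
  have h3 : p ∣ P * sprod d (n + 1 + d) :=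
    dvd_trans hdvd (dvd_trans (Nat.gcd_dvd_right _ _) (Nat.gcd_dvd_right _ _))
  have hbig : max (2 * d) P < p := by
    by_contra hle
    rw [not_lt] at hle
    rw [sprod, hp.prime.dvd_finsetProd_iff] at h1
    obtain ⟨i, hi, hi'⟩ := h1
    rw [Finset.mem_range] at hi
    obtain ⟨t, ht⟩ := choose_add_self_mod hN1 hi.le
    rw [ht] at hi'
    have h4 : p ∣ P * (max (2 * d) P).factorial * t :=
      Dvd.dvd.mul_right (Dvd.dvd.mul_left (Nat.dvd_factorial hp.pos hle) _) _
    have h5 := (Nat.dvd_add_iff_left h4).2 hi'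
    exact hp.one_lt.ne' (Nat.dvd_one.1 h5)
  have hpP : ¬ p ∣ P := fun h => by
    have := Nat.le_of_dvd hP h
    have := le_max_right (2 * d) P
    omega
  have h2' := (hp.dvd_mul.1 h2).resolve_left hpP
  have h3' := (hp.dvd_mul.1 h3).resolve_left hpP
  rw [sprod, hp.prime.dvd_finsetProd_iff] at h2' h3'
  obtain ⟨i, hi, hi'⟩ := h2'
  obtain ⟨i2, hi2, hi2'⟩ := h3'
  rw [Finset.mem_range] at hi hi2
  obtain ⟨j, hj1, hj2, hj3⟩ := exists_dvd_of_dvd_choose hp hi'
  obtain ⟨j', hj1', hj2', hj3'⟩ := exists_dvd_of_dvd_choose hp hi2'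
  have h6 : p ∣ (n + 1 + d + j') - (n + 1 + j) := Nat.dvd_sub hj3' hj3
  have h7 := Nat.le_of_dvd (by omega) h6
  have := le_max_left (2 * d) P
  omega

end V1125.DPow
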