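import Pool.Agent.V1125.DPow.Phi
import Pool.Agent.V1125.DPow.NT

/-!
# Uniformly bounded representations in the divided power algebra
-/

set_option autoImplicit false

universe u v

namespace V1125.DPow

open Polynomial

variable {k : Type u} [CommRing k]

/-- Representation of `g` by the family `F` with coefficients of degree at most `m`. -/
def Rep {ι : Type} [Fintype ι] (F : ι → DP k) (m : ℕ) (g : DP k) : Prop :=
  ∃ h : ι → DP k, (∀ j i, m < i → coeff i (h j) = 0) ∧ g = ∑ j, h j * F j

section Rep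
variable {ι : Type} [Fintype ι] {F : ι → DP k}

theorem Rep.add {m : ℕ} {g g' : DP k} (h : Rep F m g) (h' : Rep F m g') : Rep F m (g + g') := by
  obtain ⟨u, hu, rfl⟩ := h
  obtain ⟨u', hu', rfl⟩ := h'
  refine ⟨fun j => u j + u' j, fun j i hi => ?_, ?_⟩
  · rw [map_add, hu j i hi, hu' j i hi, add_zero]
  · rw [← Finset.sum_add_distrib]
    exact Finset.sum_congr rfl fun j _ => by ring

theorem Rep.smul {m : ℕ} {g : DP k} (a : k) (h : Rep F m g) : Rep F m (a • g) := by
  obtain ⟨u, hu, rfl⟩ := h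
  refine ⟨fun j => a • u j, fun j i hi => ?_, ?_⟩
  · rw [map_smul, hu j i hi, smul_zero]
  · rw [Finset.smul_sum]
    exact Finset.sum_congr rfl fun j _ => (smul_mul_assoc _ _ _).symm

theorem Rep.mono' {m m' : ℕ} (hm : m ≤ m') {g : DP k} (h : Rep F m g) : Rep F m' g := by
  obtain ⟨u, hu, rfl⟩ := h
  exact ⟨u, fun j i hi => hu j i (lt_of_le_of_lt hm hi), rfl⟩

theorem Rep.gcd {m : ℕ} {g : DP k} {a b : ℕ} (h : Rep F m ((a : k) • g))
    (h' : Rep F m ((b : k) • g)) : Rep F m (((Nat.gcd a b : ℕ) : k) • g) := by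
  have h1 : ((Nat.gcd a b : ℕ) : k) = ((Nat.gcdA a b : ℤ) : k) * (a : k) +
      ((Nat.gcdB a b : ℤ) : k) * (b : k) := by
    have := congrArg (Int.cast : ℤ → k) (Nat.gcd_eq_gcd_ab a b)
    push_cast at this
    rw [this]; ring
  rw [h1, add_smul, mul_smul, mul_smul]
  exact (h.smul _).add (h'.smul _)

theorem Rep.mem_span {m : ℕ} {g : DP k} (h : Rep F m g) : g ∈ Ideal.span (Set.range F) := by
  obtain ⟨u, _, rfl⟩ := h
  exact Ideal.sum_mem _ fun j _ => Ideal.mul_mem_left _ _ (Ideal.subset_span ⟨j, rfl⟩)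

end Rep

/-- Truncation of an element in degrees `< N`. -/
noncomputable def trunc (N : ℕ) (f : DP k) : DP k := ∑ i ∈ Finset.range N, mono i (coeff i f)

theorem coeff_sum_mono (N : ℕ) (c : ℕ → k) (m : ℕ) :
    coeff m (∑ i ∈ Finset.range N, mono i (c i) : DP k) = if m < N then c m else 0 := by
  rw [map_sum]
  split_ifs with h
  · rw [Finset.sum_eq_single m]
    · rw [coeff_mono_same]
    · intro b _ hb
      rw [coeff_mono_ne hb]
    · intro h'
      exact absurd (Finset.mem_range.2 h) h'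
  · refine Finset.sum_eq_zero fun i hi => ?_
    rw [Finset.mem_range] at hi
    rw [coeff_mono_ne (by omega)]

theorem coeff_trunc (N : ℕ) (f : DP k) (m : ℕ) :
    coeff m (trunc N f) = if m < N then coeff m f else 0 := coeff_sum_mono N _ m

/-- The degree-bounded span is finitely generated. -/
theorem rep_fg {ι : Type} [Fintype ι] (F : ι → DP k) (m : ℕ) :
    ∃ S : Submodule k (DP k), S.FG ∧ ∀ g, g ∈ S ↔ Rep F m g := by
  let L : (ι → Fin (m + 1) → k) →ₗ[k] DP k :=
    { toFun := fun c => ∑ j, (∑ i : Fin (m + 1), mono (i : ℕ) (c j i)) * F j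
      map_add' := by
        intro c c'
        rw [← Finset.sum_add_distrib]
        refine Finset.sum_congr rfl fun j _ => ?_
        rw [← add_mul, ← Finset.sum_add_distrib]
        congr 1
        refine Finset.sum_congr rfl fun i _ => ?_
        rw [← map_add]
        rfl
      map_smul' := by
        intro a c
        rw [RingHom.id_apply, Finset.smul_sum]
        refine Finset.sum_congr rfl fun j _ => ?_
        rw [← smul_mul_assoc, Finset.smul_sum]
        congr 1
        refine Finset.sum_congr rfl fun i _ => ?_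
        rw [← map_smul]
        rfl }
  refine ⟨LinearMap.range L, ?_, ?_⟩
  · rw [← Module.Finite.iff_fg]
    infer_instance
  · intro g
    rw [LinearMap.mem_range]
    constructor
    · rintro ⟨c, rfl⟩
      refine ⟨fun j => ∑ i : Fin (m + 1), mono (i : ℕ) (c j i), fun j i hi => ?_, rfl⟩
      rw [map_sum]
      refine Finset.sum_eq_zero fun x _ => ?_
      rw [coeff_mono_ne]
      have := x.2
      omega
    · rintro ⟨h, hh, rfl⟩
      refine ⟨fun j i => coeff (i : ℕ) (h j), ?_⟩
      show ∑ j, (∑ i : Fin (m + 1), mono (i : ℕ) (coeff (i : ℕ) (h j))) * F j = _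
      refine Finset.sum_congr rfl fun j _ => ?_
      congr 1
      rw [Fin.sum_univ_eq_sum_range (fun i => (mono i (coeff i (h j)) : DP k))]
      exact (eq_sum_range (h j) (m + 1) fun i hi => hh j i (by omega)).symm

section Main

variable {K : Type v} [CommRing K] [Algebra ℚ K] {ψ : k →+* K}

/-- The constant `P`: bounded denominators in low degree. -/
theorem exists_P (hD : GradedCoherent (dpComp (k := k)))
    (h1 : ∀ a : k, ψ a = 0 → ∃ s : ℕ, 0 < s ∧ (s : k) * a = 0)
    (h2 : ∀ z : K, ∃ s : ℕ, 0 < s ∧ ∃ a : k, (s : K) * z = ψ a)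
    {ι : Type} [Fintype ι] (F : ι → DP k) (d : ℕ) (hF : ∀ j i, d < i → coeff i (F j) = 0) (l : ℕ)
    (hl : ∀ n, ∀ g ∈ Ideal.span (Set.range fun j => phi ψ (F j)), g.natDegree ≤ n →
      ∃ w : ι → K[X], (∀ j, (w j).natDegree ≤ n + l) ∧ g = ∑ j, w j * phi ψ (F j)) :
    ∃ P : ℕ, 0 < P ∧ ∀ ρ : DP k, (∀ i, d < i → coeff i ρ = 0) →
      phi ψ ρ ∈ Ideal.span (Set.range fun j => phi ψ (F j)) → Rep F (d + l) ((P : k) • ρ) := by
  obtain ⟨S, hS, hSm⟩ := rep_fg F (d + l)
  obtain ⟨P, hP, hP'⟩ := tors_sub hD (d + l + d + 1) S hS (by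
    intro f hf m hm
    obtain ⟨h, hh, rfl⟩ := (hSm f).1 hf
    rw [map_sum]
    refine Finset.sum_eq_zero fun j _ => ?_
    rw [coeff_mul]
    refine Finset.sum_eq_zero ?_
    rintro ⟨p, q⟩ hpq
    rw [Finset.HasAntidiagonal.mem_antidiagonal] at hpq
    simp only at hpq ⊢
    by_cases hp : d + l < p
    · rw [hh j p hp]; simp
    · rw [hF j q (by omega)]; simp)
  refine ⟨P, hP, ?_⟩
  intro ρ hρ hmem
  have hdeg : (phi ψ ρ).natDegree ≤ d := by
    rw [natDegree_le_iff_coeff_eq_zero]
    intro m hm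
    rw [coeff_phi, hρ m hm, map_zero, zero_mul]
  obtain ⟨w, hw, hw'⟩ := hl d _ hmem hdeg
  obtain ⟨s, hs, a, ha⟩ := common_denom h2
    (fun x : ι × Fin (d + l + 1) => ((x.2.val.factorial : ℕ) : K) * (w x.1).coeff x.2)
  set w' : ι → DP k := fun j => ∑ i : Fin (d + l + 1), mono (i : ℕ) (a (j, i)) with hw'def
  have hw'c : ∀ j i, d + l < i → coeff i (w' j) = 0 := by
    intro j i hi
    rw [hw'def]
    simp only
    rw [map_sum]
    refine Finset.sum_eq_zero fun x _ => ?_
    rw [coeff_mono_ne]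
    have := x.2
    omega
  have hphi : ∀ j, phi ψ (w' j) = (s : K[X]) * w j := by
    intro j
    ext m
    have e1 : ((s : K[X]) * w j).coeff m = (s : K) * (w j).coeff m := by
      rw [← C_eq_natCast, coeff_C_mul]
    rw [coeff_phi, e1]
    by_cases hm : m < d + l + 1
    · have : coeff m (w' j) = a (j, ⟨m, hm⟩) := by
        rw [hw'def]
        simp only
        rw [map_sum, Finset.sum_eq_single ⟨m, hm⟩]
        · rw [coeff_mono_same]
        · intro b _ hb
          rw [coeff_mono_ne]
          intro h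
          apply hb
          exact Fin.ext h
        · intro h
          exact absurd (Finset.mem_univ _) h
      rw [this, ← ha (j, ⟨m, hm⟩)]
      simp only
      calc _ = (s : K) * (w j).coeff m * (((m.factorial : ℕ) : K) * invf K m) := by ring
        _ = _ := by rw [fact_mul_invf, mul_one]
    · rw [hw'c j m (by omega), map_zero, zero_mul]
      rw [Polynomial.coeff_eq_zero_of_natDegree_lt (lt_of_le_of_lt (hw j) (by omega)), mul_zero]
  have hker : phi ψ ((s : k) • ρ - ∑ j, w' j * F j) = 0 := by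
    rw [map_sub, map_sum]
    have e2 : phi ψ ((s : k) • ρ) = (s : K[X]) * phi ψ ρ := by
      have : ((s : k) • ρ : DP k) = (s : DP k) * ρ := by
        rw [Algebra.smul_def, map_natCast]
      rw [this, map_mul, map_natCast]
    have e3 : ∀ j, phi ψ (w' j * F j) = (s : K[X]) * (w j * phi ψ (F j)) := by
      intro j
      rw [map_mul, hphi]; ring
    rw [e2]
    simp only [e3]
    rw [← Finset.mul_sum, ← hw', sub_self]
  obtain ⟨s', hs', hs''⟩ := tors_of_phi h1 _ hker
  rw [smul_sub, sub_eq_zero] at hs''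
  have h3 : (((s' * s : ℕ)) : k) • ρ ∈ S := by
    rw [hSm]
    have : (((s' * s : ℕ)) : k) • ρ = (s' : k) • ∑ j, w' j * F j := by
      rw [← hs'', smul_smul]
      push_cast
      rfl
    rw [this]
    exact Rep.smul _ ⟨w', hw'c, rfl⟩
  rw [← hSm]
  exact hP' ρ ⟨s' * s, Nat.mul_pos hs' hs, h3⟩

/-- The cutting lemma. -/
theorem cut {ι : Type} [Fintype ι] (F : ι → DP k) (d : ℕ)
    (hF : ∀ j i, d < i → coeff i (F j) = 0) (l P : ℕ)
    (hP : ∀ ρ : DP k, (∀ i, d < i → coeff i ρ = 0) →
      phi ψ ρ ∈ Ideal.span (Set.range fun j => phi ψ (F j)) → Rep F (d + l) ((P : k) • ρ))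
    (n N : ℕ) (hn : n < N) (Q Q' : ℕ) (hQ0 : 0 < Q) (hQQ : Q' * Q = P)
    (hQ : ∀ i j, i < j → j ≤ d → Q ∣ (N + i).choose j)
    (f : DP k) (hf : f ∈ Ideal.span (Set.range F)) (hfn : ∀ i, n < i → coeff i f = 0) :
    Rep F (N + d + l) (((Q' * sprod d N : ℕ) : k) • f) := by
  classical
  obtain ⟨h, hh⟩ := Ideal.mem_span_range_iff_exists_fun.1 hf
  set r : DP k := ∑ j, (h j - trunc N (h j)) * F j with hr
  have hfr : f = (∑ j, trunc N (h j) * F j) + r := by
    rw [hr, ← Finset.sum_add_distrib, ← hh]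
    exact Finset.sum_congr rfl fun j _ => by ring
  have hcut : ∀ j m, m < N → coeff m (h j - trunc N (h j)) = 0 := by
    intro j m hm
    rw [map_sub, coeff_trunc, if_pos hm, sub_self]
  have hrlow : ∀ m, m < N → coeff m r = 0 := by
    intro m hm
    rw [hr, map_sum]
    refine Finset.sum_eq_zero fun j _ => ?_
    rw [coeff_mul]
    refine Finset.sum_eq_zero ?_
    rintro ⟨p, q⟩ hpq
    rw [Finset.HasAntidiagonal.mem_antidiagonal] at hpq
    simp only at hpq ⊢
    rw [hcut j p (by omega)]; simp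
  have hrform : ∀ m, N ≤ m → coeff m r = - ∑ j, coeff m (trunc N (h j) * F j) := by
    intro m hm
    have h1 := congrArg (coeff m) hfr
    rw [hfn m (by omega), map_add, map_sum] at h1
    exact eq_neg_of_add_eq_zero_right h1.symm
  have hrhigh : ∀ m, N + d ≤ m → coeff m r = 0 := by
    intro m hm
    rw [hrform m (by omega), neg_eq_zero]
    refine Finset.sum_eq_zero fun j _ => ?_
    rw [coeff_mul]
    refine Finset.sum_eq_zero ?_
    rintro ⟨p, q⟩ hpq
    rw [Finset.HasAntidiagonal.mem_antidiagonal] at hpq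
    simp only at hpq ⊢
    by_cases hp : p < N
    · rw [hF j q (by omega)]; simp
    · rw [coeff_trunc, if_neg hp]; simp
  have hrdvd : ∀ i, ∃ c : k, coeff (N + i) r = (Q : k) * c := by
    intro i
    rw [hrform _ (by omega)]
    have : (Q : k) ∣ ∑ j, coeff (N + i) (trunc N (h j) * F j) := by
      refine Finset.dvd_sum fun j _ => ?_
      rw [coeff_mul]
      refine Finset.dvd_sum ?_
      rintro ⟨p, q⟩ hpq
      rw [Finset.HasAntidiagonal.mem_antidiagonal] at hpq
      simp only at hpq ⊢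
      by_cases hp : p < N
      · by_cases hq : d < q
        · rw [hF j q hq]; simp
        · have h5 : (N + i).choose p = (N + i).choose q := by
            rw [← hpq, Nat.choose_symm_add]
          rw [h5]
          have h6 := hQ i q (by omega) (by omega)
          exact Dvd.dvd.mul_right (by exact_mod_cast Nat.cast_dvd_cast (α := k) h6) _
      · rw [coeff_trunc, if_neg hp]; simp
    obtain ⟨c, hc⟩ := this
    exact ⟨-c, by rw [hc]; ring⟩
  choose c hc using hrdvd
  set ρ : DP k := ∑ i ∈ Finset.range d,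
    mono i (((∏ x ∈ (Finset.range d).erase i, (N + x).choose x : ℕ) : k) * c i) with hρ
  have hρc : ∀ m, coeff m ρ = if m < d then
      ((∏ x ∈ (Finset.range d).erase m, (N + x).choose x : ℕ) : k) * c m else 0 := by
    intro m
    rw [hρ, coeff_sum_mono]
  have hsr : ((sprod d N : ℕ) : k) • r = (Q : k) • (mono N 1 * ρ) := by
    ext m
    rw [map_smul, map_smul, smul_eq_mul, smul_eq_mul, mul_comm (mono N 1) ρ, coeff_mul_mono]
    by_cases hm : N ≤ m
    · rw [if_pos hm, hρc]
      by_cases hm2 : m < N + d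
      · obtain ⟨i, rfl⟩ : ∃ i, m = N + i := ⟨m - N, by omega⟩
        have e1 : N + i - N = i := by omega
        rw [e1, if_pos (by omega), hc i, mul_one, Nat.choose_symm_add]
        rw [sprod, ← Finset.mul_prod_erase (Finset.range d) _ (Finset.mem_range.2
          (show i < d by omega))]
        push_cast
        ring
      · rw [hrhigh m (by omega), if_neg (by omega)]
        simp
    · rw [if_neg hm, hrlow m (by omega)]
      simp
  have hρmem : phi ψ ρ ∈ Ideal.span (Set.range fun j => phi ψ (F j)) := by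
    have hX : ∀ j, (X : K[X]) ^ N ∣ phi ψ (h j - trunc N (h j)) := by
      intro j
      rw [X_pow_dvd_iff]
      intro m hm
      rw [coeff_phi, hcut j m hm, map_zero, zero_mul]
    choose W hW using hX
    have e1 : phi ψ (((sprod d N : ℕ) : k) • r) =
        X ^ N * (((sprod d N : ℕ) : K[X]) * ∑ j, W j * phi ψ (F j)) := by
      have : (((sprod d N : ℕ) : k) • r : DP k) = ((sprod d N : ℕ) : DP k) * r := by
        rw [Algebra.smul_def, map_natCast]
      have e0 : phi ψ r = X ^ N * ∑ j, W j * phi ψ (F j) := by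
        rw [hr, map_sum, Finset.mul_sum]
        refine Finset.sum_congr rfl fun j _ => ?_
        rw [map_mul, hW j, mul_assoc]
      rw [this, map_mul, map_natCast, e0]
      ring
    have e2 : phi ψ ((Q : k) • (mono N 1 * ρ)) = X ^ N * (C ((Q : K) * invf K N) * phi ψ ρ) := by
      have : ((Q : k) • (mono N 1 * ρ) : DP k) = (Q : DP k) * (mono N 1 * ρ) := by
        rw [Algebra.smul_def, map_natCast]
      rw [this, map_mul, map_mul, map_natCast, phi_mono, map_one, one_mul,
        ← C_mul_X_pow_eq_monomial, C_mul, C_eq_natCast]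
      ring
    rw [hsr, e2] at e1
    have e3 := (Polynomial.monic_X_pow (R := K) N).isRegular.left e1
    have e4 : phi ψ ρ = C (algebraMap ℚ K ((Q : ℚ)⁻¹) * ((N.factorial : ℕ) : K)) *
        (((sprod d N : ℕ) : K[X]) * ∑ j, W j * phi ψ (F j)) := by
      rw [← e3, ← mul_assoc, ← C_mul]
      have e5 : algebraMap ℚ K ((Q : ℚ)⁻¹) * ((N.factorial : ℕ) : K) * ((Q : K) * invf K N) = 1 := by
        have e6 : (Q : K) = algebraMap ℚ K (Q : ℚ) := by simp
        calc _ = (algebraMap ℚ K ((Q : ℚ)⁻¹) * (Q : K)) * (((N.factorial : ℕ) : K) * invf K N) := by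
              ring
          _ = 1 := by
            rw [fact_mul_invf, mul_one, e6, ← map_mul, inv_mul_cancel₀, map_one]
            exact_mod_cast hQ0.ne'
      rw [e5, C_1, one_mul]
    rw [e4]
    exact Ideal.mul_mem_left _ _ (Ideal.mul_mem_left _ _ (Ideal.sum_mem _ fun j _ =>
      Ideal.mul_mem_left _ _ (Ideal.subset_span ⟨j, rfl⟩)))
  obtain ⟨w, hw, hw'⟩ := hP ρ (fun i hi => by rw [hρc, if_neg (by omega)]) hρmem
  have hrep : Rep F (N + d + l) (((Q' * sprod d N : ℕ) : k) • r) := by
    refine ⟨fun j => mono N 1 * w j, fun j i hi => ?_, ?_⟩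
    · show coeff i (mono N 1 * w j) = 0
      rw [mul_comm, coeff_mul_mono]
      split_ifs with hNi
      · rw [hw j (i - N) (by omega)]; simp
      · rfl
    · have e1 : (((Q' * sprod d N : ℕ) : k) • r : DP k) = mono N 1 * ((P : k) • ρ) := by
        have : (((Q' * sprod d N : ℕ) : k) • r : DP k) =
            (Q' : k) • (((sprod d N : ℕ) : k) • r) := by
          rw [smul_smul]; push_cast; rfl
        rw [this, hsr, smul_smul, mul_smul_comm]
        congr 1
        rw [← hQQ]
        push_cast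
        rfl
      rw [e1, hw', Finset.mul_sum]
      exact Finset.sum_congr rfl fun j _ => by ring
  rw [hfr, smul_add]
  refine Rep.add (Rep.smul _ ⟨fun j => trunc N (h j), fun j i hi => ?_, rfl⟩) hrep
  rw [coeff_trunc, if_neg (by omega)]

/-- Uniformly bounded representations. -/
theorem uniform (hD : GradedCoherent (dpComp (k := k)))
    (h1 : ∀ a : k, ψ a = 0 → ∃ s : ℕ, 0 < s ∧ (s : k) * a = 0)
    (h2 : ∀ z : K, ∃ s : ℕ, 0 < s ∧ ∃ a : k, (s : K) * z = ψ a)
    {ι : Type} [Fintype ι] (F : ι → DP k) (d : ℕ) (hF : ∀ j i, d < i → coeff i (F j) = 0)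
    (hfg : (inIdeal (polyComp (K := K)) (Ideal.span (Set.range fun j => phi ψ (F j)))).FG) :
    ∃ b : ℕ, ∀ n, ∀ f ∈ Ideal.span (Set.range F), (∀ i, n < i → coeff i f = 0) →
      Rep F (n + b) f := by
  obtain ⟨l, hl⟩ := poly_rep (fun j => phi ψ (F j)) hfg
  obtain ⟨P, hP0, hP⟩ := exists_P hD h1 h2 F d hF l hl
  set Θ : ℕ := d.factorial * (P * (max (2 * d) P).factorial) with hΘ
  have hΘ0 : 0 < Θ := by positivity
  refine ⟨Θ + (d + 1) + d + l, fun n f hf hfn => ?_⟩
  set N1 : ℕ := Θ * (n / Θ + 1) with hN1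
  have hN1a : n < N1 := by
    exact Nat.lt_mul_div_succ n hΘ0
  have hN1b : N1 ≤ n + Θ := by
    rw [hN1, mul_add, mul_one]
    have := Nat.mul_div_le n Θ
    omega
  have hN1d : Θ ∣ N1 := ⟨_, rfl⟩
  have r1 : Rep F (n + (Θ + (d + 1) + d + l)) (((sprod d N1 : ℕ) : k) • f) := by
    have := cut F d hF l P hP n N1 hN1a P 1 hP0 (one_mul P) (by
      intro i j hij hj
      exact dvd_trans (Dvd.intro _ rfl) (dvd_choose_add hN1d hij hj)) f hf hfn
    rw [one_mul] at this
    exact this.mono' (by omega)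
  have r2 : Rep F (n + (Θ + (d + 1) + d + l)) (((P * sprod d (n + 1) : ℕ) : k) • f) := by
    have := cut F d hF l P hP n (n + 1) (by omega) 1 P one_pos (mul_one P)
      (fun i j _ _ => one_dvd _) f hf hfn
    exact this.mono' (by omega)
  have r3 : Rep F (n + (Θ + (d + 1) + d + l)) (((P * sprod d (n + 1 + d) : ℕ) : k) • f) := by
    have := cut F d hF l P hP n (n + 1 + d) (by omega) 1 P one_pos (mul_one P)
      (fun i j _ _ => one_dvd _) f hf hfn
    exact this.mono' (by omega)
  have r4 := r1.gcd (r2.gcd r3)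
  rw [coprime_three hP0 hN1d, Nat.cast_one, one_smul] at r4
  exact r4

end Main

end V1125.DPow
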