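import Pool.Agent.V1125.DPow.Tors

/-!
# The comparison map from the divided power algebra to a polynomial ring over a `ℚ`-algebra
-/

set_option autoImplicit false

universe u v

namespace V1125.DPow

open Polynomial

variable {k : Type u} [CommRing k] {K : Type v} [CommRing K] [Algebra ℚ K] (ψ : k →+* K)

/-- The rational number `1 / n!` in a `ℚ`-algebra. -/
noncomputable def invf (K : Type v) [CommRing K] [Algebra ℚ K] (n : ℕ) : K :=
  algebraMap ℚ K ((n.factorial : ℚ)⁻¹)

theorem fact_mul_invf (n : ℕ) : ((n.factorial : ℕ) : K) * invf K n = 1 := by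
  have h : ((n.factorial : ℕ) : K) = algebraMap ℚ K (n.factorial : ℚ) := by simp
  rw [h, invf, ← map_mul, mul_inv_cancel₀ (by exact_mod_cast Nat.factorial_ne_zero n), map_one]

/-- The map `a x^[n] ↦ (a / n!) x^n`. -/
noncomputable def phiA : DP k →+ K[X] :=
  Finsupp.liftAddHom (α := ℕ) (M := k) (fun n => (monomial n).toAddMonoidHom.comp
    ((AddMonoidHom.mulRight (invf K n)).comp ψ.toAddMonoidHom))

theorem phiA_mono (n : ℕ) (a : k) : phiA ψ (mono n a) = monomial n (ψ a * invf K n) := by
  show Finsupp.liftAddHom (α := ℕ) (M := k) (fun n => (monomial n).toAddMonoidHom.comp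
    ((AddMonoidHom.mulRight (invf K n)).comp ψ.toAddMonoidHom)) (Finsupp.single n a) = _
  rw [Finsupp.liftAddHom_apply_single]
  rfl

theorem coeff_phiA (m : ℕ) (f : DP k) : (phiA ψ f).coeff m = ψ (coeff m f) * invf K m := by
  induction f using induction_linear with
  | h0 => simp
  | hadd f g hf hg => rw [map_add, coeff_add, hf, hg, map_add, map_add]; ring
  | hm n a =>
    rw [phiA_mono, coeff_monomial, coeff_mono]
    split_ifs with h
    · rw [h]
    · simp

theorem invf_mul (i j : ℕ) : invf K i * invf K j = (((i + j).choose i : ℕ) : K) * invf K (i + j) := by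
  have h1 : ((i.factorial : ℕ) : K) * ((j.factorial : ℕ) : K) *
      ((((i + j).choose i : ℕ)) : K) = (((i + j).factorial : ℕ) : K) := by
    have := Nat.add_choose_mul_factorial_mul_factorial i j
    rw [← Nat.choose_symm_add] at this
    have h2 := congrArg (Nat.cast : ℕ → K) this
    push_cast at h2 ⊢
    rw [← h2]; ring
  calc invf K i * invf K j
      = invf K i * invf K j * ((((i + j).factorial : ℕ) : K) * invf K (i + j)) := by
        rw [fact_mul_invf, mul_one]
    _ = (((i.factorial : ℕ) : K) * invf K i) * (((j.factorial : ℕ) : K) * invf K j) *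
        ((((i + j).choose i : ℕ) : K) * invf K (i + j)) := by rw [← h1]; ring
    _ = _ := by rw [fact_mul_invf, fact_mul_invf]; ring

theorem phiA_mul (f g : DP k) : phiA ψ (f * g) = phiA ψ f * phiA ψ g := by
  induction f using induction_linear with
  | h0 => simp
  | hadd f f' h h' => rw [add_mul, map_add, map_add, h, h', add_mul]
  | hm i a =>
    induction g using induction_linear with
    | h0 => simp
    | hadd f f' h h' => rw [mul_add, map_add, map_add, h, h', mul_add]
    | hm j b =>
      rw [mono_mul_mono, phiA_mono, phiA_mono, phiA_mono, monomial_mul_monomial]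
      congr 1
      rw [map_mul, map_mul, map_natCast]
      calc _ = (ψ a * ψ b) * ((((i + j).choose i : ℕ) : K) * invf K (i + j)) := by ring
        _ = _ := by rw [← invf_mul]; ring

/-- The ring homomorphism `a x^[n] ↦ (a / n!) x^n`. -/
noncomputable def phi : DP k →+* K[X] :=
  { phiA ψ with
    map_one' := by
      show phiA ψ (mono 0 1) = 1
      rw [phiA_mono, map_one, one_mul]
      have := fact_mul_invf (K := K) 0
      rw [Nat.factorial_zero, Nat.cast_one, one_mul] at this
      rw [this]
      rfl
    map_mul' := phiA_mul ψ }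

theorem coeff_phi (m : ℕ) (f : DP k) : (phi ψ f).coeff m = ψ (coeff m f) * invf K m :=
  coeff_phiA ψ m f

theorem phi_mono (n : ℕ) (a : k) : phi ψ (mono n a) = monomial n (ψ a * invf K n) :=
  phiA_mono ψ n a

variable {ψ}

omit [Algebra ℚ K] in
/-- Common denominators. -/
theorem common_denom (h2 : ∀ z : K, ∃ s : ℕ, 0 < s ∧ ∃ a : k, (s : K) * z = ψ a)
    {α : Type} [Fintype α] (z : α → K) :
    ∃ s : ℕ, 0 < s ∧ ∃ a : α → k, ∀ x, (s : K) * z x = ψ (a x) := by
  classical
  choose s hs a ha using fun x => h2 (z x)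
  refine ⟨∏ x, s x, Finset.prod_pos fun x _ => hs x,
    fun x => ((∏ y ∈ Finset.univ.erase x, s y : ℕ) : k) * a x, fun x => ?_⟩
  rw [map_mul, map_natCast, ← ha x, ← Finset.prod_erase_mul Finset.univ s (Finset.mem_univ x)]
  push_cast
  ring

/-- An element of the kernel of `phi` is torsion. -/
theorem tors_of_phi (h1 : ∀ a : k, ψ a = 0 → ∃ s : ℕ, 0 < s ∧ (s : k) * a = 0) (f : DP k)
    (hf : phi ψ f = 0) : ∃ s : ℕ, 0 < s ∧ (s : k) • f = 0 := by
  classical
  have h3 : ∀ m, ∃ s : ℕ, 0 < s ∧ (s : k) * coeff m f = 0 := by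
    intro m
    apply h1
    have h4 := congrArg (fun p : K[X] => p.coeff m) hf
    simp only [coeff_phi, coeff_zero] at h4
    calc ψ (coeff m f) = (ψ (coeff m f) * invf K m) * ((m.factorial : ℕ) : K) := by
          rw [mul_assoc, mul_comm (invf K m), fact_mul_invf, mul_one]
      _ = 0 := by rw [h4, zero_mul]
  choose s hs hs' using h3
  obtain ⟨n, hn⟩ := exists_bound f
  refine ⟨∏ i ∈ Finset.range (n + 1), s i, Finset.prod_pos fun i _ => hs i, ?_⟩
  ext m
  rw [map_smul, smul_eq_mul, map_zero]
  by_cases hm : m < n + 1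
  · rw [← Finset.mul_prod_erase (Finset.range (n + 1)) s (Finset.mem_range.2 hm)]
    push_cast
    rw [mul_right_comm, hs' m, zero_mul]
  · rw [hn m (by omega), mul_zero]

end V1125.DPow
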