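import Pool.Agent.V1125.DPow.Basic

/-!
# Graded coherence of the divided power algebra: consequences
-/

set_option autoImplicit false

universe u

namespace V1125.DPow

section Defs

variable {R : Type u} [CommRing R] (comp : ℕ → R → R)

/-- An ideal of a graded ring (`comp n f` is the degree `n` component of `f`) is homogeneous. -/
def IsHomog (I : Ideal R) : Prop := ∀ f ∈ I, ∀ n, comp n f ∈ I

/-- Every finitely generated homogeneous ideal is finitely presented. -/
def GradedCoherent : Prop :=
  ∀ I : Ideal R, I.FG → IsHomog comp I → Module.FinitePresentation R I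

/-- `g` is the initial form of `f`: its nonzero homogeneous component of largest degree. -/
def IsInit (f g : R) : Prop := ∃ n, g = comp n f ∧ g ≠ 0 ∧ ∀ m, n < m → comp m f = 0

/-- The initial ideal of `I`. -/
def inIdeal (I : Ideal R) : Ideal R := Ideal.span {g | ∃ f ∈ I, IsInit comp f g}

/-- Gröbner-coherence. -/
def GroebnerCoherent : Prop :=
  GradedCoherent comp ∧ ∀ I : Ideal R, I.FG → (inIdeal comp I).FG

end Defs

variable {k : Type u} [CommRing k]

/-- The degree `n` component of an element of `D_k`. -/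
noncomputable def dpComp (n : ℕ) (f : DP k) : DP k := mono n (coeff n f)

theorem coeff_mul_mono (n : ℕ) (h : DP k) (d : ℕ) (a : k) :
    coeff n (h * mono d a) =
      if d ≤ n then ((n.choose d : ℕ) : k) * (coeff (n - d) h * a) else 0 := by
  rw [mul_comm, coeff_mul]
  split_ifs with hd
  · rw [Finset.sum_eq_single (d, n - d)]
    · rw [coeff_mono_same]; ring
    · rintro ⟨p, q⟩ hp hne
      rw [Finset.HasAntidiagonal.mem_antidiagonal] at hp
      have h1 : d ≠ p := by
        rintro rfl
        apply hne
        simp only at hp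
        rw [Prod.mk.injEq]
        omega
      rw [coeff_mono_ne h1, zero_mul, mul_zero]
    · intro h
      exact absurd ((Finset.HasAntidiagonal.mem_antidiagonal (a := (d, n - d))).2
        (by simp only; omega)) h
  · refine Finset.sum_eq_zero ?_
    rintro ⟨p, q⟩ hp
    rw [Finset.HasAntidiagonal.mem_antidiagonal] at hp
    simp only at hp
    have h1 : d ≠ p := by omega
    rw [coeff_mono_ne h1, zero_mul, mul_zero]

theorem mono_zero' (n : ℕ) : (mono n (0 : k) : DP k) = 0 := map_zero _

theorem comp_mul_mono (n : ℕ) (h : DP k) (d : ℕ) (a : k) :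
    mono n (coeff n (h * mono d a)) =
      (if d ≤ n then mono (n - d) (coeff (n - d) h) else 0) * mono d a := by
  rw [coeff_mul_mono]
  split_ifs with hd
  · rw [mono_mul_mono]
    have h1 : n - d + d = n := by omega
    rw [h1]
    congr 2
    rw [Nat.choose_symm hd]
  · rw [mono_zero', zero_mul]

/-- The `D`-linear map `h ↦ ∑ h_i a_i x^[d_i]`. -/
noncomputable def lin {ι : Type} [Fintype ι] (d : ι → ℕ) (a : ι → k) :
    (ι → DP k) →ₗ[DP k] DP k := ∑ i, (mono (d i) (a i)) • LinearMap.proj i

theorem lin_apply {ι : Type} [Fintype ι] (d : ι → ℕ) (a : ι → k) (h : ι → DP k) :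
    lin d a h = ∑ i, h i * mono (d i) (a i) := by
  simp only [lin, LinearMap.sum_apply, LinearMap.smul_apply, LinearMap.proj_apply, smul_eq_mul]
  exact Finset.sum_congr rfl fun i _ => mul_comm _ _

/-- The shifted component of a vector. -/
noncomputable def hc {ι : Type} (d : ι → ℕ) (m : ℕ) (h : ι → DP k) : ι → DP k :=
  fun i => if d i ≤ m then mono (m - d i) (coeff (m - d i) (h i)) else 0

theorem lin_hc {ι : Type} [Fintype ι] (d : ι → ℕ) (a : ι → k) (m : ℕ) (h : ι → DP k) :
    lin d a (hc d m h) = mono m (coeff m (lin d a h)) := by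
  rw [lin_apply, lin_apply, map_sum, map_sum]
  refine Finset.sum_congr rfl fun i _ => ?_
  rw [comp_mul_mono]
  rfl

theorem mem_span_range {ι : Type} [Fintype ι] (d : ι → ℕ) (a : ι → k) (f : DP k) :
    f ∈ Ideal.span (Set.range fun i => (mono (d i) (a i) : DP k)) ↔ ∃ h, lin d a h = f := by
  rw [Ideal.mem_span_range_iff_exists_fun]
  constructor
  · rintro ⟨h, hh⟩
    exact ⟨h, by rw [lin_apply]; exact hh⟩
  · rintro ⟨h, hh⟩
    exact ⟨h, by rw [lin_apply] at hh; exact hh⟩

theorem homog_span {ι : Type} [Fintype ι] (d : ι → ℕ) (a : ι → k) :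
    IsHomog (dpComp (k := k)) (Ideal.span (Set.range fun i => (mono (d i) (a i) : DP k))) := by
  intro f hf n
  obtain ⟨h, rfl⟩ := (mem_span_range d a f).1 hf
  exact (mem_span_range d a _).2 ⟨hc d n h, by rw [lin_hc]; rfl⟩

theorem syz_fg (hD : GradedCoherent (dpComp (k := k))) {ι : Type} [Fintype ι] (d : ι → ℕ)
    (a : ι → k) : (LinearMap.ker (lin d a)).FG := by
  set I : Ideal (DP k) := Ideal.span (Set.range fun i => (mono (d i) (a i) : DP k)) with hI
  have hfg : I.FG := Submodule.fg_span (Set.finite_range _)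
  have := hD I hfg (homog_span d a)
  have hmem : ∀ h, lin d a h ∈ I := fun h => (mem_span_range d a _).2 ⟨h, rfl⟩
  have hsurj : Function.Surjective (LinearMap.codRestrict I (lin d a) hmem) := by
    rintro ⟨f, hf⟩
    obtain ⟨h, hh⟩ := (mem_span_range d a f).1 hf
    exact ⟨h, Subtype.ext hh⟩
  have := Module.FinitePresentation.fg_ker (LinearMap.codRestrict I (lin d a) hmem) hsurj
  rwa [LinearMap.ker_codRestrict] at this

/-- `k` is coherent. -/
theorem rel_fg (hD : GradedCoherent (dpComp (k := k))) {ι : Type} [Fintype ι] (a : ι → k) :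
    (LinearMap.ker (Fintype.linearCombination k a)).FG := by
  obtain ⟨W, hW⟩ := syz_fg hD (fun _ : ι => 0) a
  classical
  refine ⟨W.image (fun w i => coeff 0 (w i)), ?_⟩
  apply le_antisymm
  · rw [Submodule.span_le]
    intro c hc
    simp only [Finset.coe_image, Set.mem_image, Finset.mem_coe] at hc
    obtain ⟨w, hw, rfl⟩ := hc
    have h1 : w ∈ LinearMap.ker (lin (fun _ : ι => 0) a) := by
      rw [← hW]; exact Submodule.subset_span hw
    rw [LinearMap.mem_ker, lin_apply] at h1
    have h2 := congrArg (coeff 0) h1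
    rw [map_sum, map_zero] at h2
    simp only [SetLike.mem_coe, LinearMap.mem_ker, Fintype.linearCombination_apply, smul_eq_mul]
    rw [← h2]
    refine Finset.sum_congr rfl fun i _ => ?_
    rw [coeff_mul_mono]
    simp
  · intro c hc
    rw [LinearMap.mem_ker, Fintype.linearCombination_apply] at hc
    have h1 : (fun i => (mono 0 (c i) : DP k)) ∈ LinearMap.ker (lin (fun _ : ι => 0) a) := by
      rw [LinearMap.mem_ker, lin_apply]
      have : ∀ i, (mono 0 (c i) * mono 0 (a i) : DP k) = mono 0 (c i • a i) := by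
        intro i
        rw [mono_mul_mono]; simp
      simp only [this, ← map_sum, hc, map_zero]
    rw [← hW, Submodule.mem_span_finset] at h1
    obtain ⟨u, _, hu⟩ := h1
    have h2 : c = ∑ w ∈ W, coeff 0 (u w) • (fun i => coeff 0 (w i)) := by
      funext i
      have h3 := congrArg (coeff 0) (congrFun hu i)
      rw [coeff_mono_same] at h3
      rw [← h3, Finset.sum_apply, map_sum, Finset.sum_apply]
      refine Finset.sum_congr rfl fun w _ => ?_
      rw [Pi.smul_apply, Pi.smul_apply, smul_eq_mul, smul_eq_mul, coeff_mul]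
      simp
    rw [h2]
    refine Submodule.sum_mem _ fun w hw => Submodule.smul_mem _ _ (Submodule.subset_span ?_)
    simp only [Finset.coe_image, Set.mem_image, Finset.mem_coe]
    exact ⟨w, hw, rfl⟩

/-- The torsion of `k / 𝔞` is bounded for every finitely generated ideal `𝔞`. -/
theorem tors_ideal (hD : GradedCoherent (dpComp (k := k))) {ι : Type} [Fintype ι] (a : ι → k) :
    ∃ P : ℕ, 0 < P ∧ ∀ v : k, (∃ s : ℕ, 0 < s ∧ (s : k) * v ∈ Ideal.span (Set.range a)) →
      (P : k) * v ∈ Ideal.span (Set.range a) := by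
  classical
  set d : Option ι → ℕ := fun o => o.elim 1 (fun _ => 0) with hd
  set b : Option ι → k := fun o => o.elim 1 a with hb
  obtain ⟨W, hW⟩ := syz_fg hD d b
  obtain ⟨N, hN⟩ : ∃ N, ∀ w ∈ W, ∀ m, N < m → coeff m (w none) = 0 := by
    choose B hB using fun w : Option ι → DP k => exists_bound (w none)
    refine ⟨W.sup B, fun w hw m hm => hB w m (lt_of_le_of_lt (Finset.le_sup hw) hm)⟩
  have key : ∀ w ∈ W, ∀ m, ((m + 1 : ℕ) : k) * coeff m (w none) ∈ Ideal.span (Set.range a) := by
    intro w hw m
    have h1 : w ∈ LinearMap.ker (lin d b) := by rw [← hW]; exact Submodule.subset_span hw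
    rw [LinearMap.mem_ker, lin_apply, Fintype.sum_option] at h1
    have h2 := congrArg (coeff (m + 1)) h1
    rw [map_add, map_sum, map_zero, coeff_mul_mono] at h2
    have h3 : ∀ i : ι, coeff (m + 1) (w (some i) * mono (d (some i)) (b (some i))) =
        coeff (m + 1) (w (some i)) * a i := by
      intro i
      rw [coeff_mul_mono]
      simp [hd, hb]
    simp only [h3] at h2
    have h4 : d none ≤ m + 1 := by simp [hd]
    rw [if_pos h4] at h2
    have h5 : ((m + 1 : ℕ) : k) * coeff m (w none) = - ∑ i, coeff (m + 1) (w (some i)) * a i := by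
      apply eq_neg_of_add_eq_zero_left
      simpa [hd, hb] using h2
    rw [h5]
    refine neg_mem (Ideal.sum_mem _ fun i _ => Ideal.mul_mem_left _ _ (Ideal.subset_span ⟨i, rfl⟩))
  refine ⟨(N + 1).factorial, Nat.factorial_pos _, ?_⟩
  rintro v ⟨s, hs, hv⟩
  obtain ⟨c, hc⟩ := Ideal.mem_span_range_iff_exists_fun.1 hv
  have h1 : (fun o : Option ι => o.elim (mono (s - 1) v : DP k) (fun i => mono s (- c i))) ∈
      LinearMap.ker (lin d b) := by
    rw [LinearMap.mem_ker, lin_apply, Fintype.sum_option]
    have e1 : (mono (s - 1) v * mono 1 1 : DP k) = mono s ((s : k) * v) := by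
      rw [mono_mul_mono]
      have : s - 1 + 1 = s := by omega
      rw [this]
      congr 1
      rw [mul_one]
      congr 2
      obtain ⟨t, rfl⟩ : ∃ t, s = t + 1 := ⟨s - 1, by omega⟩
      simp
    have e2 : ∀ i, (mono s (- c i) * mono 0 (a i) : DP k) = mono s (- (c i * a i)) := by
      intro i
      rw [mono_mul_mono]; simp
    show (mono (s - 1) v * mono 1 1 : DP k) + ∑ i, (mono s (- c i) * mono 0 (a i)) = 0
    rw [e1]
    simp only [e2]
    rw [← map_sum, ← map_add, Finset.sum_neg_distrib, hc, add_neg_cancel, map_zero]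
  rw [← hW, Submodule.mem_span_finset] at h1
  obtain ⟨u, _, hu⟩ := h1
  have h3 := congrArg (coeff (s - 1)) (congrFun hu none)
  simp only [Option.elim_none, coeff_mono_same] at h3
  rw [← h3, Finset.sum_apply, map_sum, Finset.mul_sum]
  refine Ideal.sum_mem _ fun w hw => ?_
  rw [Pi.smul_apply, smul_eq_mul, coeff_mul, Finset.mul_sum]
  refine Ideal.sum_mem _ fun p _ => ?_
  by_cases hp : N < p.2
  · rw [hN w hw _ hp]; simp
  · have h5 : (p.2 + 1) ∣ (N + 1).factorial := Nat.dvd_factorial (by omega) (by omega)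
    obtain ⟨q, hq⟩ := h5
    have h6 : (((N + 1).factorial : ℕ) : k) * ((((s - 1).choose p.1 : ℕ) : k) *
        (coeff p.1 (u w) * coeff p.2 (w none))) =
        ((q : k) * (((s - 1).choose p.1 : ℕ) : k) * coeff p.1 (u w)) *
          (((p.2 + 1 : ℕ) : k) * coeff p.2 (w none)) := by
      rw [hq]; push_cast; ring
    rw [h6]
    exact Ideal.mul_mem_left _ _ (key w hw _)

end V1125.DPow
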