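import Pool.Agent.V1125.DPow.Syz

/-!
# Bounded torsion modulo finitely generated submodules, and the comparison with polynomials
-/

set_option autoImplicit false

universe u v

namespace V1125.DPow

variable {k : Type u} [CommRing k]

theorem tors_sub (hD : GradedCoherent (dpComp (k := k))) (n : ℕ) :
    ∀ S : Submodule k (DP k), S.FG → (∀ f ∈ S, ∀ m, n ≤ m → coeff m f = 0) →
      ∃ P : ℕ, 0 < P ∧ ∀ v : DP k, (∃ s : ℕ, 0 < s ∧ (s : k) • v ∈ S) → (P : k) • v ∈ S := by
  induction n with
  | zero =>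
    intro S _ hS
    obtain ⟨P, hP, hP'⟩ := tors_ideal hD (Fin.elim0 : Fin 0 → k)
    refine ⟨P, hP, ?_⟩
    rintro v ⟨s, hs, hv⟩
    have h1 : (s : k) • v = 0 := by
      ext m
      rw [hS _ hv m (Nat.zero_le _), map_zero]
    have hbot : Ideal.span (Set.range (Fin.elim0 : Fin 0 → k)) = ⊥ := by
      rw [Set.range_eq_empty, Ideal.span_empty]
    have h2 : (P : k) • v = 0 := by
      ext m
      have h3 := hP' (coeff m v) ⟨s, hs, by
        rw [hbot, Ideal.mem_bot]
        have := congrArg (coeff m) h1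
        rwa [map_smul, map_zero, smul_eq_mul] at this⟩
      rw [hbot, Ideal.mem_bot] at h3
      rw [map_smul, smul_eq_mul, h3, map_zero]
    rw [h2]
    exact S.zero_mem
  | succ n ih =>
    intro S hfg hS
    obtain ⟨t, v, hv⟩ := Submodule.fg_iff_exists_fin_generating_family.1 hfg
    obtain ⟨P1, hP1, hP1'⟩ := tors_ideal hD (fun i => coeff n (v i))
    set S0 : Submodule k (DP k) :=
      (LinearMap.ker (Fintype.linearCombination k (fun i => coeff n (v i)))).map
        (Fintype.linearCombination k v) with hS0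
    have hS0fg : S0.FG := (rel_fg hD _).map _
    have hmem : ∀ f, f ∈ S ↔ ∃ c : Fin t → k, f = ∑ i, c i • v i := by
      intro f
      rw [← hv, Submodule.mem_span_range_iff_exists_fun]
      constructor
      · rintro ⟨c, hc⟩; exact ⟨c, hc.symm⟩
      · rintro ⟨c, hc⟩; exact ⟨c, hc.symm⟩
    have hmem0 : ∀ f, f ∈ S0 ↔ ∃ c : Fin t → k, ∑ i, c i * coeff n (v i) = 0 ∧
        f = ∑ i, c i • v i := by
      intro f
      rw [hS0, Submodule.mem_map]
      constructor
      · rintro ⟨c, hc, rfl⟩
        rw [LinearMap.mem_ker, Fintype.linearCombination_apply] at hc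
        exact ⟨c, hc, Fintype.linearCombination_apply _ _ _⟩
      · rintro ⟨c, hc, rfl⟩
        refine ⟨c, ?_, Fintype.linearCombination_apply _ _ _⟩
        rw [LinearMap.mem_ker, Fintype.linearCombination_apply]
        exact hc
    have hS0le : ∀ f ∈ S0, f ∈ S := by
      intro f hf
      obtain ⟨c, _, hc⟩ := (hmem0 f).1 hf
      exact (hmem f).2 ⟨c, hc⟩
    obtain ⟨P2, hP2, hP2'⟩ := ih S0 hS0fg (by
      intro f hf m hm
      rcases Nat.eq_or_lt_of_le hm with rfl | hm'
      · obtain ⟨c, hc, rfl⟩ := (hmem0 f).1 hf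
        rw [map_sum, ← hc]
        refine Finset.sum_congr rfl fun i _ => ?_
        rw [map_smul, smul_eq_mul]
      · exact hS f (hS0le f hf) m hm')
    refine ⟨P2 * P1, Nat.mul_pos hP2 hP1, ?_⟩
    rintro w ⟨s, hs, hw⟩
    obtain ⟨c, hc⟩ := (hmem _).1 hw
    have hcn : (s : k) * coeff n w = ∑ i, c i * coeff n (v i) := by
      have := congrArg (coeff n) hc
      rw [map_smul, smul_eq_mul, map_sum] at this
      rw [this]
      refine Finset.sum_congr rfl fun i _ => ?_
      rw [map_smul, smul_eq_mul]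
    have h1 := hP1' (coeff n w) ⟨s, hs, by
      rw [hcn]
      exact Ideal.sum_mem _ fun i _ => Ideal.mul_mem_left _ _ (Ideal.subset_span ⟨i, rfl⟩)⟩
    obtain ⟨e, he⟩ := Ideal.mem_span_range_iff_exists_fun.1 h1
    set σ : DP k := ∑ i, e i • v i with hσ
    have hσS : σ ∈ S := (hmem σ).2 ⟨e, rfl⟩
    have h2 : (s : k) • ((P1 : k) • w - σ) ∈ S0 := by
      refine (hmem0 _).2 ⟨fun i => (P1 : k) * c i - (s : k) * e i, ?_, ?_⟩
      · have e1 : ∑ i, ((P1 : k) * c i - (s : k) * e i) * coeff n (v i) =
            (P1 : k) * ∑ i, c i * coeff n (v i) - (s : k) * ∑ i, e i * coeff n (v i) := by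
          rw [Finset.mul_sum, Finset.mul_sum, ← Finset.sum_sub_distrib]
          exact Finset.sum_congr rfl fun i _ => by ring
        rw [e1, ← hcn, he]; ring
      · rw [smul_sub, smul_comm, hc, hσ, Finset.smul_sum, Finset.smul_sum,
          ← Finset.sum_sub_distrib]
        refine Finset.sum_congr rfl fun i _ => ?_
        rw [sub_smul, mul_smul, mul_smul]
    have h3 := hS0le _ (hP2' _ ⟨s, hs, h2⟩)
    have h4 : (((P2 * P1 : ℕ)) : k) • w = (P2 : k) • ((P1 : k) • w - σ) + (P2 : k) • σ := by
      rw [← smul_add, sub_add_cancel, smul_smul]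
      push_cast
      rfl
    rw [h4]
    exact S.add_mem h3 (S.smul_mem _ hσS)

section Poly

open Polynomial

/-- The degree `n` component of a polynomial. -/
noncomputable def polyComp {K : Type v} [CommRing K] (n : ℕ) (f : K[X]) : K[X] :=
  monomial n (f.coeff n)

theorem coeff_mul_monomial' {K : Type v} [CommRing K] (p : K[X]) (n d : ℕ) (r : K) :
    (p * monomial n r).coeff d = if n ≤ d then p.coeff (d - n) * r else 0 := by
  rw [← C_mul_X_pow_eq_monomial, ← mul_assoc, coeff_mul_X_pow']
  split_ifs with h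
  · rw [coeff_mul_C]
  · rfl

/-- Representation with bounded degrees in a polynomial ring, from a finite Gröbner basis. -/
theorem poly_rep {K : Type v} [CommRing K] {ι : Type} [Fintype ι] (G : ι → K[X])
    (hfg : (inIdeal (polyComp (K := K)) (Ideal.span (Set.range G))).FG) :
    ∃ l : ℕ, ∀ n, ∀ g ∈ Ideal.span (Set.range G), g.natDegree ≤ n →
      ∃ w : ι → K[X], (∀ j, (w j).natDegree ≤ n + l) ∧ g = ∑ j, w j * G j := by
  classical
  set I := Ideal.span (Set.range G) with hI
  obtain ⟨T, hT, hspan⟩ := (Submodule.fg_span_iff_fg_span_finset_subset _).1 hfg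
  have hch : ∀ τ : K[X], τ ∈ T → ∃ f ∈ I, ∃ n, τ = monomial n (f.coeff n) ∧
      ∀ m, n < m → f.coeff m = 0 := by
    intro τ hτ
    obtain ⟨f, hf, n, h1, _, h3⟩ := hT hτ
    refine ⟨f, hf, n, h1, fun m hm => ?_⟩
    have := h3 m hm
    rwa [polyComp, monomial_eq_zero_iff] at this
  choose! f hfI n hn hdeg using hch
  have hu : ∀ τ : K[X], τ ∈ T → ∃ u : ι → K[X], ∑ j, u j * G j = f τ := by
    intro τ hτ
    exact Ideal.mem_span_range_iff_exists_fun.1 (hfI τ hτ)
  choose! u hu using hu
  refine ⟨T.sup fun τ => Finset.univ.sup fun j => (u τ j).natDegree, ?_⟩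
  set l := T.sup fun τ => Finset.univ.sup fun j => (u τ j).natDegree with hl
  have hul : ∀ τ ∈ T, ∀ j, (u τ j).natDegree ≤ l := fun τ hτ j =>
    le_trans (Finset.le_sup (f := fun j => (u τ j).natDegree) (Finset.mem_univ j))
      (Finset.le_sup (f := fun τ => Finset.univ.sup fun j => (u τ j).natDegree) hτ)
  -- one step
  have step : ∀ N, ∀ g ∈ I, g.natDegree ≤ N → ∃ v : K[X] → K[X], (∀ τ, (v τ).natDegree ≤ N) ∧
      (g - ∑ τ ∈ T, v τ * f τ).natDegree ≤ N ∧ (g - ∑ τ ∈ T, v τ * f τ).coeff N = 0 := by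
    intro N g hg hgN
    by_cases hc : g.coeff N = 0
    · refine ⟨fun _ => 0, fun τ => by simp, ?_, ?_⟩
      · simpa using hgN
      · simpa using hc
    have h1 : monomial N (g.coeff N) ∈ inIdeal (polyComp (K := K)) I := by
      refine Ideal.subset_span ⟨g, hg, N, rfl, ?_, ?_⟩
      · rwa [Ne, monomial_eq_zero_iff]
      · intro m hm
        rw [polyComp, Polynomial.coeff_eq_zero_of_natDegree_lt (lt_of_le_of_lt hgN hm)]
        simp
    have h2 : monomial N (g.coeff N) ∈ Submodule.span K[X] (T : Set K[X]) := by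
      rw [← hspan]; exact h1
    rw [Submodule.mem_span_finset] at h2
    obtain ⟨w, _, hw⟩ := h2
    refine ⟨fun τ => if n τ ≤ N then monomial (N - n τ) ((w τ).coeff (N - n τ)) else 0,
      fun τ => ?_, ?_, ?_⟩
    · dsimp only
      split_ifs with h
      · exact le_trans (natDegree_monomial_le _) (Nat.sub_le _ _)
      · simp
    · refine le_trans (natDegree_sub_le _ _) (max_le hgN ?_)
      refine Polynomial.natDegree_sum_le_of_forall_le _ _ fun τ hτ => ?_
      dsimp only
      split_ifs with h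
      · refine le_trans (natDegree_mul_le) ?_
        have h5 : (f τ).natDegree ≤ n τ := by
          rw [natDegree_le_iff_coeff_eq_zero]
          exact fun m hm => hdeg τ hτ m hm
        have h6 := natDegree_monomial_le (R := K) ((w τ).coeff (N - n τ)) (m := N - n τ)
        omega
      · simp
    · rw [coeff_sub, finsetSum_coeff]
      have h3 := congrArg (fun p : K[X] => p.coeff N) hw
      simp only [finsetSum_coeff, coeff_monomial_same, smul_eq_mul] at h3
      rw [← h3, sub_eq_zero]
      refine Finset.sum_congr rfl fun τ hτ => ?_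
      have h8 : ∀ p : K[X], (p * τ).coeff N =
          (p * monomial (n τ) ((f τ).coeff (n τ))).coeff N := by
        intro p
        conv_lhs => rw [hn τ hτ]
      dsimp only
      rw [h8]
      split_ifs with h
      · rw [coeff_mul_monomial', if_pos h, mul_comm (monomial (N - n τ) _), coeff_mul_monomial',
          if_pos (Nat.sub_le _ _), mul_comm]
        congr 2
        omega
      · rw [coeff_mul_monomial', if_neg h, zero_mul, coeff_zero]
  intro N
  induction N with
  | zero =>
    intro g hg hgN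
    obtain ⟨v, hv, hd, hc⟩ := step 0 g hg hgN
    have hz : g - ∑ τ ∈ T, v τ * f τ = 0 := by
      rw [Polynomial.eq_C_of_natDegree_le_zero hd, hc, C_0]
    refine ⟨fun j => ∑ τ ∈ T, v τ * u τ j, fun j => ?_, ?_⟩
    · refine Polynomial.natDegree_sum_le_of_forall_le _ _ fun τ hτ => ?_
      exact le_trans natDegree_mul_le (Nat.add_le_add (hv τ) (hul τ hτ j))
    · rw [sub_eq_zero.1 hz]
      simp only [Finset.sum_mul]
      rw [Finset.sum_comm]
      refine Finset.sum_congr rfl fun τ hτ => ?_
      rw [← hu τ hτ, Finset.mul_sum]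
      exact Finset.sum_congr rfl fun j _ => by ring
  | succ N ih =>
    intro g hg hgN
    obtain ⟨v, hv, hd, hc⟩ := step (N + 1) g hg hgN
    have hmem : g - ∑ τ ∈ T, v τ * f τ ∈ I :=
      Ideal.sub_mem _ hg (Ideal.sum_mem _ fun τ hτ => Ideal.mul_mem_left _ _ (hfI τ hτ))
    have hle : (g - ∑ τ ∈ T, v τ * f τ).natDegree ≤ N := by
      rw [natDegree_le_iff_coeff_eq_zero] at hd ⊢
      intro m hm
      rcases Nat.eq_or_lt_of_le (Nat.succ_le_of_lt hm) with h | h
      · rw [← h]; exact hc
      · exact hd m h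
    obtain ⟨w, hw, hgw⟩ := ih _ hmem hle
    refine ⟨fun j => w j + ∑ τ ∈ T, v τ * u τ j, fun j => ?_, ?_⟩
    · refine le_trans (natDegree_add_le _ _) (max_le ?_ ?_)
      · have := hw j; omega
      · refine Polynomial.natDegree_sum_le_of_forall_le _ _ fun τ hτ => ?_
        exact le_trans natDegree_mul_le (Nat.add_le_add (hv τ) (hul τ hτ j))
    · rw [sub_eq_iff_eq_add] at hgw
      rw [hgw]
      simp only [add_mul, Finset.sum_add_distrib, Finset.sum_mul]
      congr 1
      rw [Finset.sum_comm]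
      refine Finset.sum_congr rfl fun τ hτ => ?_
      rw [← hu τ hτ, Finset.mul_sum]
      exact Finset.sum_congr rfl fun j _ => by ring

end Poly

end V1125.DPow
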